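import Pool.Agent.Helper18.CPC.St

/-! CPC, module PR: countable monolithicity of products of compact spaces. -/

set_option autoImplicit false

open N4f246296
open TopologicalSpace Topology Filter Set

namespace Pool.Agent.Helper53.CPC

open Pool.Agent.Helper18.CPC

universe u v

/-- The map between closures induced by a continuous map. -/
def clMap {X : Type*} {Y : Type*} [TopologicalSpace X] [TopologicalSpace Y] (f : X → Y)
    (hf : Continuous f) (A : Set X) (a : closure A) : closure (f '' A) :=
  ⟨f a.1, image_closure_subset_closure_image hf ⟨a.1, a.2, rfl⟩⟩

theorem continuous_clMap {X : Type*} {Y : Type*} [TopologicalSpace X] [TopologicalSpace Y]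
    (f : X → Y) (hf : Continuous f) (A : Set X) : Continuous (clMap f hf A) :=
  Continuous.subtype_mk (hf.comp continuous_subtype_val) _

/-- A compact space with a countable point-separating family of continuous maps to countably
monolithic spaces is countably monolithic. -/
theorem mono_of_family {Z : Type*} [TopologicalSpace Z] [CompactSpace Z]
    {ι : Type*} [Countable ι] {M : ι → Type*} [∀ i, TopologicalSpace (M i)]
    (hM : ∀ i, CountablyMonolithicSpace (M i)) (f : ∀ i, Z → M i) (hf : ∀ i, Continuous (f i))
    (hs : ∀ a b, (∀ i, f i a = f i b) → a = b) : CountablyMonolithicSpace Z := by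
  refine ⟨fun A hA => ?_⟩
  haveI : CompactSpace (closure A) := isCompact_iff_compactSpace.mp isClosed_closure.isCompact
  haveI : ∀ i, MetrizableSpace (closure (f i '' A)) := fun i =>
    (hM i).metrizable_of_closure_of_countable (hA.image (f i))
  refine metrizable_of_countable_family (M := fun i => (closure (f i '' A) : Set (M i)))
    (fun i => clMap (f i) (hf i) A) (fun i => continuous_clMap (f i) (hf i) A) ?_
  intro a b h
  apply Subtype.ext
  apply hs
  intro i
  exact congrArg Subtype.val (h i)

theorem m_PR : hPR.{u, v} := by
  constructor
  · intro K T _ _ _ _ _ _ hK hT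
    refine ⟨fun A hA => ?_⟩
    haveI : CompactSpace (closure A) := isCompact_iff_compactSpace.mp isClosed_closure.isCompact
    haveI h1 : MetrizableSpace (closure ((Prod.fst : K × T → K) '' A)) :=
      hK.metrizable_of_closure_of_countable (hA.image _)
    haveI h2 : MetrizableSpace (closure ((Prod.snd : K × T → T) '' A)) :=
      hT.metrizable_of_closure_of_countable (hA.image _)
    have hc : Continuous (fun a : closure A =>
        (clMap (Prod.fst : K × T → K) continuous_fst A a,
          clMap (Prod.snd : K × T → T) continuous_snd A a)) :=
      (continuous_clMap _ _ _).prodMk (continuous_clMap _ _ _)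
    have hi : Function.Injective (fun a : closure A =>
        (clMap (Prod.fst : K × T → K) continuous_fst A a,
          clMap (Prod.snd : K × T → T) continuous_snd A a)) := by
      intro a b h
      have e1 : a.1.1 = b.1.1 := congrArg (fun z => (z.1 : K)) h
      have e2 : a.1.2 = b.1.2 := congrArg (fun z => (z.2 : T)) h
      exact Subtype.ext (Prod.ext e1 e2)
    exact (hc.isClosedEmbedding hi).isEmbedding.metrizableSpace
  · intro Y _ _ _ hY
    exact mono_of_family (M := fun _ : ℕ => Y) (fun _ => hY) (fun n (y : ℕ → Y) => y n)
      (fun n => continuous_apply n) (fun a b h => funext h)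

end Pool.Agent.Helper53.CPC
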